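import Pool.Agent.Lib_helper51.GL.DefsD
import Pool.Agent.Lib_helper37.GL.DIR

/-!
# Project GL, block DB: the fibres of the signs
-/

set_option autoImplicit false

namespace Pool.Agent.GL

open Finset Pool.Agent.PQ

theorem db_mod4 (m : ℕ) (hm : MM m) : m % 4 = 1 := by
  have key : ∀ m : ℕ, m ≠ 0 → (∀ p : ℕ, p.Prime → p ∣ m → p % 4 = 1) → m % 4 = 1 := by
    intro m hm0 h4
    induction m using Nat.recOnMul with
    | zero => exact absurd rfl hm0
    | one => rfl
    | prime p hp => exact h4 p hp dvd_rfl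
    | mul a b ha hb =>
      have ha0 : a ≠ 0 := left_ne_zero_of_mul hm0
      have hb0 : b ≠ 0 := right_ne_zero_of_mul hm0
      have h1 := ha ha0 (fun p hp hpa => h4 p hp (hpa.mul_right b))
      have h2 := hb hb0 (fun p hp hpb => h4 p hp (hpb.mul_left a))
      rw [Nat.mul_mod, h1, h2]
  exact key m hm.1.ne_zero hm.2

theorem db_pos (m : ℕ) (hm : MM m) : 0 < m := Nat.pos_of_ne_zero hm.1.ne_zero

theorem db_mem (m u : ℕ) : u ∈ U m ↔ u < 8 * m ∧ Nat.Coprime u (8 * m) ∧ (m * u) % 8 = 3 := by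
  unfold U
  rw [mem_filter, mem_range]

theorem db_memB (m u : ℕ) (β : ℕ → ℤ) : u ∈ UB m β ↔ u ∈ U m ∧
    ∀ p : ℕ, p.Prime → p ∣ m → jacobiSym (u : ℤ) p = β p := by
  classical
  unfold UB
  rw [mem_filter]

/-- multiplication by `g` -/
theorem db_mul (m : ℕ) (g : ℕ) (hg : Nat.Coprime g (8 * m)) (hg8 : g % 8 = 1) (u : ℕ)
    (hu : u ∈ U m) : (g * u) % (8 * m) ∈ U m := by
  rw [db_mem] at hu ⊢
  obtain ⟨h1, h2, h3⟩ := hu
  refine ⟨Nat.mod_lt _ (by omega), ?_, ?_⟩
  · have h4 : Nat.Coprime (g * u) (8 * m) := Nat.Coprime.mul_left hg h2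
    unfold Nat.Coprime at h4 ⊢
    rw [← Nat.gcd_rec, Nat.gcd_comm]
    exact h4
  · have h5 : (g * u) % (8 * m) % 8 = u % 8 := by
      rw [Nat.mod_mod_of_dvd _ (Dvd.intro _ rfl), Nat.mul_mod, hg8, one_mul, Nat.mod_mod]
    rw [Nat.mul_mod, h5, ← Nat.mul_mod]
    exact h3

theorem db_inj (m : ℕ) (g : ℕ) (hg : Nat.Coprime g (8 * m)) (u v : ℕ)
    (hu : u ∈ U m) (hv : v ∈ U m) (h : (g * u) % (8 * m) = (g * v) % (8 * m)) : u = v := by
  rw [db_mem] at hu hv
  have h1 : u ≡ v [MOD 8 * m] := Nat.ModEq.cancel_left_of_coprime (Nat.Coprime.symm hg) h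
  exact Nat.ModEq.eq_of_lt_of_lt h1 hu.1 hv.1

theorem db_jac (m : ℕ) (g u p : ℕ) (hp : p ∣ m) :
    jacobiSym (((g * u) % (8 * m) : ℕ) : ℤ) p = jacobiSym (g : ℤ) p * jacobiSym (u : ℤ) p := by
  have h1 : (((g * u) % (8 * m) : ℕ) : ℤ) % p = ((g : ℤ) * u) % p := by
    have h2 : (g * u) % (8 * m) ≡ g * u [MOD p] :=
      (Nat.mod_modEq _ _).of_dvd (hp.mul_left 8)
    exact_mod_cast h2
  rw [jacobiSym.mod_left, h1, ← jacobiSym.mod_left, jacobiSym.mul_left]

theorem db_le (m : ℕ) (hm : MM m) (β β' : ℕ → ℤ) (hβ : ∀ p, β p = 1 ∨ β p = -1)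
    (hβ' : ∀ p, β' p = 1 ∨ β' p = -1) : (UB m β).card ≤ (UB m β').card := by
  have hm4 := db_mod4 m hm
  obtain ⟨g, hgp, hgm, hg8, hg⟩ := dir m hm.1 (by omega) (fun p => β p * β' p)
    (fun p => by rcases hβ p with h | h <;> rcases hβ' p with h' | h' <;> simp [h, h']) 1 rfl
  have hg8' : g % 8 = 1 := hg8
  have hgc : Nat.Coprime g (8 * m) := by
    rw [hgp.coprime_iff_not_dvd]
    intro hd
    rcases (hgp.dvd_mul).1 hd with h | h
    · have : g ∣ 2 ^ 3 := by simpa using h
      have := hgp.dvd_of_dvd_pow this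
      have := (Nat.prime_dvd_prime_iff_eq hgp Nat.prime_two).1 this
      omega
    · have := Nat.le_of_dvd (db_pos m hm) h
      omega
  refine card_le_card_of_injOn (fun u => (g * u) % (8 * m)) ?_ ?_
  · intro u hu
    have hu' : u ∈ UB m β := hu
    rw [db_memB] at hu'
    change (g * u) % (8 * m) ∈ UB m β'
    rw [db_memB]
    refine ⟨db_mul m g hgc hg8' u hu'.1, fun p hp hpm => ?_⟩
    rw [db_jac m g u p hpm, hg p hp hpm, hu'.2 p hp hpm]
    rcases hβ p with h | h <;> simp [h]
  · intro u hu v hv huv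
    have hu' : u ∈ UB m β := hu
    have hv' : v ∈ UB m β := hv
    rw [db_memB] at hu' hv'
    exact db_inj m g hgc u v hu'.1 hv'.1 huv

theorem du_card (m : ℕ) (hm : MM m) : (U m).card = Nat.totient m := by
  classical
  have hm4 := db_mod4 m hm
  have hm0 : 0 < m := db_pos m hm
  have hM : 0 < 8 * m := by omega
  have h8m : Nat.Coprime 8 m := by
    have : Nat.Coprime 2 m := by
      rw [Nat.coprime_two_left, Nat.odd_iff]; omega
    exact Nat.Coprime.pow_left 3 this
  rw [Nat.totient_eq_card_coprime]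
  refine Finset.card_bij (fun u _ => u % m) ?_ ?_ ?_
  · intro u hu
    rw [db_mem] at hu
    simp only [mem_filter, mem_range]
    refine ⟨Nat.mod_lt _ hm0, ?_⟩
    have h1 : Nat.Coprime u m := Nat.Coprime.coprime_mul_left_right hu.2.1
    unfold Nat.Coprime at h1 ⊢
    rw [← h1, Nat.gcd_comm u m, Nat.gcd_rec m u, Nat.gcd_comm]
  · intro u hu v hv huv
    rw [db_mem] at hu hv
    have hu8 : u % 8 = v % 8 := by
      have h1 := hu.2.2
      have h2 := hv.2.2
      rw [Nat.mul_mod] at h1 h2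
      have hcases : m % 8 = 1 ∨ m % 8 = 5 := by omega
      have hu : u % 8 < 8 := Nat.mod_lt _ (by norm_num)
      have hv : v % 8 < 8 := Nat.mod_lt _ (by norm_num)
      rcases hcases with h | h
      · rw [h] at h1 h2
        omega
      · rw [h] at h1 h2
        omega
    have h3 : u ≡ v [MOD 8 * m] := (Nat.modEq_and_modEq_iff_modEq_mul h8m).1 ⟨hu8, huv⟩
    exact Nat.ModEq.eq_of_lt_of_lt h3 hu.1 hv.1
  · intro v hv
    simp only [mem_filter, mem_range] at hv
    -- the residue modulo 8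
    obtain ⟨s, hs8, hs⟩ : ∃ s, s < 8 ∧ (m * s) % 8 = 3 := by
      have hcases : m % 8 = 1 ∨ m % 8 = 5 := by omega
      rcases hcases with h | h
      · exact ⟨3, by norm_num, by rw [Nat.mul_mod, h]⟩
      · exact ⟨7, by norm_num, by rw [Nat.mul_mod, h]⟩
    set k := Nat.chineseRemainder h8m s v with hk
    have hk8 : (k : ℕ) % 8 = s := by
      have := k.prop.1
      unfold Nat.ModEq at this
      rw [this, Nat.mod_eq_of_lt hs8]
    have hkm : (k : ℕ) % m = v := by
      have := k.prop.2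
      unfold Nat.ModEq at this
      rw [this, Nat.mod_eq_of_lt hv.1]
    have hmk : (m * (k : ℕ)) % 8 = 3 := by
      rw [Nat.mul_mod, hk8]
      rw [Nat.mul_mod] at hs
      rwa [Nat.mod_eq_of_lt hs8] at hs
    have hs2 : s % 2 = 1 := by
      by_contra hcon
      have h2 : s % 2 = 0 := by omega
      obtain ⟨r, rfl⟩ : 2 ∣ s := Nat.dvd_of_mod_eq_zero h2
      have : (m * (2 * r)) = 2 * (m * r) := by ring
      rw [this] at hs
      omega
    have hcop : Nat.Coprime (k : ℕ) (8 * m) := by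
      apply Nat.Coprime.mul_right
      · have h2 : Nat.Coprime (k : ℕ) 2 := by
          rw [Nat.coprime_two_right, Nat.odd_iff]
          omega
        exact Nat.Coprime.pow_right 3 h2
      · have h3 := hv.2
        unfold Nat.Coprime at h3 ⊢
        rw [Nat.gcd_comm, Nat.gcd_rec, hkm, Nat.gcd_comm]
        exact h3
    have hlt : (k : ℕ) < 8 * m := Nat.chineseRemainder_lt_mul h8m _ _ (by norm_num) hm.1.ne_zero
    exact ⟨k, by rw [db_mem]; exact ⟨hlt, hcop, hmk⟩, hkm⟩

/-- the signs of a set of primes -/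
theorem db (m : ℕ) (hm : MM m) (β : ℕ → ℤ) (hβ : ∀ p, β p = 1 ∨ β p = -1) :
    (UB m β).card * 2 ^ w m = Nat.totient m := by
  classical
  have hm0 : m ≠ 0 := hm.1.ne_zero
  let sg : Finset ℕ → ℕ → ℤ := fun T p => if p ∈ T then -1 else 1
  have hsg : ∀ T p, sg T p = 1 ∨ sg T p = -1 := by
    intro T p
    simp only [sg]
    split_ifs
    · exact Or.inr rfl
    · exact Or.inl rfl
  have hfib := card_eq_sum_card_fiberwise (s := U m) (t := m.primeFactors.powerset)
    (f := fun u : ℕ => m.primeFactors.filter (fun p => jacobiSym (u : ℤ) p = -1))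
    (fun u _ => by
      simp only [coe_powerset, Set.mem_preimage, Set.mem_powerset_iff, coe_subset]
      exact filter_subset _ _)
  have hone : ∀ T ∈ m.primeFactors.powerset,
      ((U m).filter (fun u : ℕ => m.primeFactors.filter
        (fun p => jacobiSym (u : ℤ) p = -1) = T)).card = (UB m β).card := by
    intro T hT
    rw [mem_powerset] at hT
    have h1 : (U m).filter (fun u : ℕ => m.primeFactors.filter
        (fun p => jacobiSym (u : ℤ) p = -1) = T) = UB m (sg T) := by
      ext u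
      rw [mem_filter, db_memB]
      refine and_congr_right fun hu => ?_
      rw [db_mem] at hu
      have hpm : ∀ p : ℕ, p.Prime → p ∣ m → jacobiSym (u : ℤ) p = 1 ∨ jacobiSym (u : ℤ) p = -1 := by
        intro p hp hpm
        refine jacobiSym.eq_one_or_neg_one ?_
        rw [Int.gcd_natCast_natCast]
        exact Nat.Coprime.coprime_dvd_right (hpm.mul_left 8) hu.2.1
      constructor
      · rintro rfl p hp hpm'
        simp only [sg, mem_filter, Nat.mem_primeFactors]
        rcases hpm p hp hpm' with h | h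
        · rw [h, if_neg]
          rintro ⟨-, h'⟩
          norm_num at h'
        · rw [h, if_pos ⟨⟨hp, hpm', hm0⟩, rfl⟩]
      · intro h
        ext p
        rw [mem_filter, Nat.mem_primeFactors]
        constructor
        · rintro ⟨⟨hp, hpm', -⟩, h'⟩
          rw [h p hp hpm'] at h'
          simp only [sg] at h'
          by_contra hcon
          rw [if_neg hcon] at h'
          norm_num at h'
        · intro hpT
          have hp' := Nat.mem_primeFactors.1 (hT hpT)
          refine ⟨hp', ?_⟩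
          rw [h p hp'.1 hp'.2.1]
          simp only [sg]
          rw [if_pos hpT]
    rw [h1]
    exact le_antisymm (db_le m hm _ _ (hsg T) hβ) (db_le m hm _ _ hβ (hsg T))
  rw [sum_congr rfl hone, sum_const, card_powerset, smul_eq_mul, du_card m hm] at hfib
  unfold w
  rw [hfib, mul_comm]

end Pool.Agent.GL
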