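import Pool.Agent.Lib_helper31.GL.DB

/-!
# Project GL, block DH: half of a fibre
-/

set_option autoImplicit false

namespace Pool.Agent.GL

open Finset Pool.Agent.PQ

theorem dh_sq (p : ℕ) [Fact p.Prime] (h4 : p % 4 = 1) (s : ZMod p) :
    (∃ z : ZMod p, z ^ 4 = s ^ 2) ↔ IsSquare s := by
  constructor
  · rintro ⟨z, hz⟩
    have h1 : (z ^ 2 - s) * (z ^ 2 + s) = 0 := by linear_combination hz
    rcases mul_eq_zero.1 h1 with h | h
    · exact ⟨z, by linear_combination -h⟩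
    · obtain ⟨i, hi⟩ : IsSquare (-1 : ZMod p) := by
        rw [ZMod.exists_sq_eq_neg_one_iff]
        omega
      exact ⟨i * z, by linear_combination h + z ^ 2 * hi⟩
  · rintro ⟨t, rfl⟩
    exact ⟨t, by ring⟩

theorem dh_mul (p : ℕ) [Fact p.Prime] (hp2 : p ≠ 2) (g s : ZMod p) (hg : ¬ IsSquare g)
    (hs : s ≠ 0) :
    IsSquare (g * s) ↔ ¬ IsSquare s := by
  have hg0 : g ≠ 0 := by
    rintro rfl
    exact hg ⟨0, by ring⟩
  have hF : ringChar (ZMod p) ≠ 2 := by rwa [ZMod.ringChar_zmod_n]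
  have hgs : g * s ≠ 0 := mul_ne_zero hg0 hs
  have h1 : quadraticChar (ZMod p) g = -1 := quadraticChar_neg_one_iff_not_isSquare.2 hg
  rw [← quadraticChar_one_iff_isSquare hgs, map_mul, h1,
    ← quadraticChar_neg_one_iff_not_isSquare]
  constructor
  · intro h
    linarith
  · intro h
    rw [h]
    norm_num

theorem dh_pow4 (p : ℕ) (hp : p.Prime) (h4 : p % 4 = 1) (x y : ℕ) (hx : jacobiSym (x : ℤ) p = 1)
    (γ : ZMod p) (hγ : ¬ IsSquare γ) (hy : (y : ZMod p) = γ ^ 2 * x) :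
    Pow4 y p ↔ ¬ Pow4 x p := by
  have : Fact p.Prime := ⟨hp⟩
  have hx' : legendreSym p (x : ℤ) = 1 := by
    rw [jacobiSym.legendreSym.to_jacobiSym]
    exact hx
  have hx0 : ((x : ℤ) : ZMod p) ≠ 0 := by
    intro h0
    rw [(legendreSym.eq_zero_iff p (x : ℤ)).2 h0] at hx'
    norm_num at hx'
  obtain ⟨s, hs⟩ := (legendreSym.eq_one_iff p hx0).1 hx'
  have hs' : (x : ZMod p) = s ^ 2 := by
    rw [sq, ← hs]
    norm_cast
  have hs0 : s ≠ 0 := by
    rintro rfl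
    apply hx0
    rw [hs]
    ring
  unfold Pow4
  rw [hy, hs', ← mul_pow, dh_sq p h4, dh_sq p h4]
  exact dh_mul p (by rintro rfl; norm_num at h4) γ s hγ hs0

theorem dh_par (F F' : Finset ℕ) (p₀ : ℕ) (h : ∀ p, p ≠ p₀ → (p ∈ F' ↔ p ∈ F))
    (h₀ : p₀ ∈ F' ↔ p₀ ∉ F) : Even F'.card ↔ ¬ Even F.card := by
  have hE : F'.erase p₀ = F.erase p₀ := by
    ext p
    rw [mem_erase, mem_erase]
    exact and_congr_right fun hp => h p hp
  by_cases hF : p₀ ∈ F
  · have hF' : p₀ ∉ F' := fun hh => (h₀.1 hh) hF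
    rw [erase_eq_of_notMem hF'] at hE
    have := card_erase_add_one hF
    rw [← hE] at this
    rw [← this, Nat.even_add_one, not_not]
  · have hF' : p₀ ∈ F' := h₀.2 hF
    rw [erase_eq_of_notMem hF] at hE
    have := card_erase_add_one hF'
    rw [hE] at this
    rw [← this, Nat.even_add_one]

open Classical in
theorem dh (m : ℕ) (hm : MM m) (β : ℕ → ℤ) (hβ : ∀ p, β p = 1 ∨ β p = -1) (d : ℕ) (hd : d ∣ m) (h1 : 1 < d)
    (hd2 : ∀ p : ℕ, p.Prime → p ∣ d → jacobiSym ((m / d : ℕ) : ℤ) p * β p = 1) :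
    2 * ((UB m β).filter (fun u => Even (nq m u d))).card = (UB m β).card := by
  have hm4 := db_mod4 m hm
  have hm0 := db_pos m hm
  obtain ⟨p₀, hp₀, hp₀d⟩ := Nat.exists_prime_and_dvd (by omega : d ≠ 1)
  have hp₀m : p₀ ∣ m := hp₀d.trans hd
  have hp4 : p₀ % 4 = 1 := hm.2 p₀ hp₀ hp₀m
  have : Fact p₀.Prime := ⟨hp₀⟩
  obtain ⟨γ, hγ⟩ : ∃ γ : ZMod p₀, ¬ IsSquare γ := by
    refine FiniteField.exists_nonsquare ?_
    rw [ZMod.ringChar_zmod_n]
    rintro rfl
    norm_num at hp4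
  have hγ0 : γ ≠ 0 := by
    rintro rfl
    exact hγ ⟨0, by ring⟩
  -- the multiplier
  obtain ⟨m', hm'⟩ := hp₀m
  have hcop : Nat.Coprime p₀ (8 * m') := by
    have h2 : Squarefree (p₀ * m') := hm' ▸ hm.1
    have h3 : Nat.Coprime p₀ m' := (Nat.squarefree_mul_iff.1 h2).1
    refine Nat.Coprime.mul_right ?_ h3
    rw [hp₀.coprime_iff_not_dvd]
    intro hh
    have h5 : p₀ ∣ 2 ^ 3 := by simpa using hh
    have h6 := hp₀.dvd_of_dvd_pow h5
    have h7 := (Nat.prime_dvd_prime_iff_eq hp₀ Nat.prime_two).1 h6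
    omega
  set k := Nat.chineseRemainder hcop (γ ^ 2).val 1 with hk
  have hk1 : (k : ℕ) ≡ (γ ^ 2).val [MOD p₀] := k.prop.1
  have hk2 : (k : ℕ) ≡ 1 [MOD 8 * m'] := k.prop.2
  have hkγ : ((k : ℕ) : ZMod p₀) = γ ^ 2 := by
    rw [(ZMod.natCast_eq_natCast_iff _ _ _).2 hk1, ZMod.natCast_val, ZMod.cast_id]
  have hk8 : (k : ℕ) % 8 = 1 := (hk2.of_dvd (Dvd.intro _ rfl))
  have hkp : ∀ p : ℕ, p.Prime → p ∣ m → p ≠ p₀ → ((k : ℕ) : ZMod p) = 1 := by
    intro p hp hpm hne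
    have h2 : p ∣ m' := by
      rw [hm'] at hpm
      rcases (hp.dvd_mul).1 hpm with h | h
      · exact absurd ((Nat.prime_dvd_prime_iff_eq hp hp₀).1 h) hne
      · exact h
    have h3 := (ZMod.natCast_eq_natCast_iff _ _ _).2 (hk2.of_dvd (h2.mul_left 8))
    rw [h3, Nat.cast_one]
  have hkc : Nat.Coprime (k : ℕ) (8 * m) := by
    have h2 : Nat.Coprime (k : ℕ) (8 * m') := by
      have h4 := hk2.gcd_eq
      unfold Nat.Coprime
      rw [Nat.gcd_comm, Nat.gcd_comm, h4, Nat.gcd_one_left]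
    have h3 : Nat.Coprime (k : ℕ) p₀ := by
      rw [Nat.coprime_comm, hp₀.coprime_iff_not_dvd]
      intro hh
      rw [← ZMod.natCast_eq_zero_iff, hkγ] at hh
      exact hγ0 (pow_eq_zero_iff (two_ne_zero) |>.1 hh)
    have h5 : 8 * m = p₀ * (8 * m') := by rw [hm']; ring
    rw [h5]
    exact Nat.Coprime.mul_right h3 h2
  have hkj : ∀ p : ℕ, p.Prime → p ∣ m → jacobiSym ((k : ℕ) : ℤ) p = 1 := by
    intro p hp hpm
    have : Fact p.Prime := ⟨hp⟩
    rw [← jacobiSym.legendreSym.to_jacobiSym]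
    have hne0 : (((k : ℕ) : ℤ) : ZMod p) ≠ 0 := by
      rw [Int.cast_natCast]
      by_cases hpp : p = p₀
      · subst hpp
        rw [hkγ]
        exact pow_ne_zero _ hγ0
      · rw [hkp p hp hpm hpp]
        exact one_ne_zero
    rw [legendreSym.eq_one_iff p hne0, Int.cast_natCast]
    by_cases hpp : p = p₀
    · subst hpp
      rw [hkγ]
      exact ⟨γ, sq γ⟩
    · rw [hkp p hp hpm hpp]
      exact ⟨1, by ring⟩
  -- membership
  have hmem : ∀ u ∈ UB m β, ((k : ℕ) * u) % (8 * m) ∈ UB m β := by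
    intro u hu
    rw [db_memB] at hu ⊢
    refine ⟨db_mul m k hkc hk8 u hu.1, fun p hp hpm => ?_⟩
    rw [db_jac m k u p hpm, hkj p hp hpm, one_mul]
    exact hu.2 p hp hpm
  -- the flip
  have hflip : ∀ u ∈ UB m β, (Even (nq m (((k : ℕ) * u) % (8 * m)) d) ↔ ¬ Even (nq m u d)) := by
    intro u hu
    rw [db_memB] at hu
    have hcast : ∀ p : ℕ, p ∣ m → ((m / d * (((k : ℕ) * u) % (8 * m)) : ℕ) : ZMod p) =
        ((k : ℕ) : ZMod p) * ((m / d * u : ℕ) : ZMod p) := by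
      intro p hpm
      have h2 : ((((k : ℕ) * u) % (8 * m) : ℕ) : ZMod p) = (((k : ℕ) * u : ℕ) : ZMod p) :=
        (ZMod.natCast_eq_natCast_iff _ _ _).2
          ((Nat.mod_modEq _ _).of_dvd (hpm.mul_left 8))
      rw [Nat.cast_mul, h2]
      push_cast
      ring
    unfold nq
    refine dh_par _ _ p₀ (fun p hne => ?_) ?_
    · rw [mem_filter, mem_filter]
      refine and_congr_right fun hp => ?_
      have hp' := Nat.mem_primeFactors.1 hp
      have hpm : p ∣ m := hp'.2.1.trans hd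
      unfold Pow4
      rw [hcast p hpm, hkp p hp'.1 hpm hne, one_mul]
    · rw [mem_filter, mem_filter]
      have hmemp : p₀ ∈ d.primeFactors := Nat.mem_primeFactors.2 ⟨hp₀, hp₀d, by omega⟩
      have hx : jacobiSym ((m / d * u : ℕ) : ℤ) p₀ = 1 := by
        rw [Nat.cast_mul, jacobiSym.mul_left, hu.2 p₀ hp₀ (hp₀d.trans hd)]
        exact hd2 p₀ hp₀ hp₀d
      have h2 := dh_pow4 p₀ hp₀ hp4 (m / d * u) (m / d * (((k : ℕ) * u) % (8 * m))) hx γ hγ
        (by rw [hcast p₀ (hp₀d.trans hd), hkγ])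
      rw [h2]
      tauto
  have hle : ∀ (P Q : ℕ → Prop) [DecidablePred P] [DecidablePred Q],
      (∀ u ∈ UB m β, P u → Q (((k : ℕ) * u) % (8 * m))) →
      ((UB m β).filter P).card ≤ ((UB m β).filter Q).card := by
    intro P Q _ _ hPQ
    refine card_le_card_of_injOn (fun u => ((k : ℕ) * u) % (8 * m)) ?_ ?_
    · intro u hu
      have hu' := mem_filter.1 (mem_coe.1 hu)
      exact mem_coe.2 (mem_filter.2 ⟨hmem u hu'.1, hPQ u hu'.1 hu'.2⟩)
    · intro u hu v hv huv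
      have hu' := mem_filter.1 (mem_coe.1 hu)
      have hv' := mem_filter.1 (mem_coe.1 hv)
      rw [db_memB] at hu' hv'
      exact db_inj m k hkc u v hu'.1.1 hv'.1.1 huv
  have e1 : ((UB m β).filter (fun u => Even (nq m u d))).card =
      ((UB m β).filter (fun u => ¬ Even (nq m u d))).card :=
    le_antisymm
      (hle (fun u => Even (nq m u d)) (fun u => ¬ Even (nq m u d))
        fun u hu hP hQ => ((hflip u hu).1 hQ) hP)
      (hle (fun u => ¬ Even (nq m u d)) (fun u => Even (nq m u d))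
        fun u hu hP => (hflip u hu).2 hP)
  have e2 := card_filter_add_card_filter_not (s := UB m β) (fun u => Even (nq m u d))
  omega

end Pool.Agent.GL
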